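import Pool.Agent.Q231.Ships.Density

/-!
# MP_e24151_co: the toughest density for two 3-ships is 1/2
-/

namespace Pool.Agent.Results.MP_e24151_co.OneHalf

open Filter Finset

/-- A `k`-ship: integers `a 0 < a 1 < ... < a (k-1)`. -/
def IsShip {k : ℕ} (a : Fin k → ℤ) : Prop := StrictMono a

/-- A shooting pattern: a sequence of zeros and ones indexed by the integers. -/
def IsPattern (x : ℤ → ℕ) : Prop := ∀ i, x i = 0 ∨ x i = 1

/-- The pattern `x` hits the ship `a`: every translate of `a` contains a shot. -/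
def Hits (x : ℤ → ℕ) {k : ℕ} (a : Fin k → ℤ) : Prop := ∀ t : ℤ, 1 ≤ ∑ j, x (t + a j)

/-- The density of `x` exists and equals `δ`. -/
def HasDensity (x : ℤ → ℕ) (δ : ℝ) : Prop :=
  Tendsto (fun N : ℕ => (∑ i ∈ Finset.Icc (-(N : ℤ)) N, (x i : ℝ)) / (2 * N + 1)) atTop (nhds δ)

/-- The number `π(F)` of a family `F = {S 0, ..., S (n-1)}` of ships. -/
noncomputable def piOf {n k : ℕ} (S : Fin n → Fin k → ℤ) : ℝ :=
  sInf {δ : ℝ | ∃ x : ℤ → ℕ, IsPattern x ∧ (∀ i, Hits x (S i)) ∧ HasDensity x δ}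

/-- The number `M^n_k`: the supremum of `π(F)` over all families of `n` ships of size `k`. -/
noncomputable def toughest (n k : ℕ) : ℝ :=
  sSup {p : ℝ | ∃ S : Fin n → Fin k → ℤ, (∀ i, IsShip (S i)) ∧ p = piOf S}

/-- lower bound for windows: in a pattern hitting `[0,1,2]` and `[0,1,3]`, every window has at most
two more zeros than ones -/
lemma window {x : ℤ → ℕ} (hx : IsPattern x) (h1 : ∀ t, 1 ≤ x t + x (t + 1) + x (t + 2))
    (h2 : ∀ t, 1 ≤ x t + x (t + 1) + x (t + 3)) (n : ℕ) (a : ℤ) :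
    (n : ℤ) ≤ 2 * ∑ j ∈ range n, (x (a + j) : ℤ) + 2 := by
  induction n using Nat.strong_induction_on generalizing a with
  | _ n ih =>
    have hnn : ∀ m : ℕ, ∀ b : ℤ, 0 ≤ ∑ j ∈ range m, (x (b + j) : ℤ) := fun m b =>
      Finset.sum_nonneg fun _ _ => Int.natCast_nonneg _
    have split : ∀ m r : ℕ, n = m + r → ∑ j ∈ range n, (x (a + j) : ℤ) =
        ∑ j ∈ range m, (x (a + j) : ℤ) + ∑ j ∈ range r, (x (a + m + j) : ℤ) := by
      intro m r h
      rw [h, Finset.sum_range_add]
      congr 1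
      apply Finset.sum_congr rfl
      intro j _
      congr 2; push_cast; ring
    rcases Nat.lt_or_ge n 3 with hn | hn
    · have := hnn n a
      omega
    · rcases hx a with h0 | h0
      · rcases hx (a + 1) with h3 | h3
        · -- two zeros, then two ones
          have e1 := h1 a
          have e2 := h2 a
          rw [h0, h3] at e1 e2
          rcases Nat.lt_or_ge n 4 with hn4 | hn4
          · have hs := split 3 (n - 3) (by omega)
            have := hnn (n - 3) (a + ((3 : ℕ) : ℤ))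
            rw [hs]
            simp only [Finset.sum_range_succ, Finset.sum_range_zero]
            push_cast at *
            omega
          · have hs := split 4 (n - 4) (by omega)
            have hi := ih (n - 4) (by omega) (a + ((4 : ℕ) : ℤ))
            rw [hs]
            simp only [Finset.sum_range_succ, Finset.sum_range_zero]
            push_cast at *
            omega
        · have hs := split 2 (n - 2) (by omega)
          have hi := ih (n - 2) (by omega) (a + ((2 : ℕ) : ℤ))
          rw [hs]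
          simp only [Finset.sum_range_succ, Finset.sum_range_zero]
          push_cast at *
          rw [h3]
          omega
      · have hs := split 1 (n - 1) (by omega)
        have hi := ih (n - 1) (by omega) (a + ((1 : ℕ) : ℤ))
        rw [hs]
        simp only [Finset.sum_range_succ, Finset.sum_range_zero]
        push_cast at *
        rw [add_zero, h0]
        omega

/-- every pattern hitting `[0,1,2]` and `[0,1,3]` has density at least one half -/
lemma lower {x : ℤ → ℕ} (hx : IsPattern x) (h : ∀ i, Hits x ((![![0, 1, 2], ![0, 1, 3]] :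
    Fin 2 → Fin 3 → ℤ) i)) {δ : ℝ} (hδ : HasDensity x δ) : 1 / 2 ≤ δ := by
  have h1 : ∀ t, 1 ≤ x t + x (t + 1) + x (t + 2) := by
    intro t
    have := h 0 t
    simpa [Fin.sum_univ_three] using this
  have h2 : ∀ t, 1 ≤ x t + x (t + 1) + x (t + 3) := by
    intro t
    have := h 1 t
    simpa [Fin.sum_univ_three] using this
  have hlow : Tendsto (fun N : ℕ => (1 : ℝ) / 2 - 1 / ((N : ℝ) + 1)) atTop (nhds (1 / 2)) := by
    have := (tendsto_one_div_add_atTop_nhds_zero_nat (𝕜 := ℝ)).const_sub (1 / 2 : ℝ)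
    simpa using this
  refine le_of_tendsto_of_tendsto' hlow hδ ?_
  intro N
  have hw := window hx h1 h2 (2 * N + 1) (-(N : ℤ))
  have hw' : ((2 * N + 1 : ℕ) : ℝ) ≤ 2 * ∑ j ∈ range (2 * N + 1), (x (-(N : ℤ) + j) : ℝ) + 2 := by
    exact_mod_cast hw
  rw [Pool.Agent.Q231.Ships.sum_Icc_eq (fun i => (x i : ℝ))]
  push_cast at hw'
  have hN : (0 : ℝ) ≤ N := Nat.cast_nonneg N
  rw [le_div_iff₀ (by positivity)]
  have h3 : (1 : ℝ) / (N + 1) * (2 * N + 1) ≥ 1 := by
    rw [ge_iff_le, div_mul_eq_mul_div, one_mul, le_div_iff₀ (by positivity)]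
    linarith
  nlinarith

/-- a common pattern of density `1/2` for two 3-ships -/
lemma upper (S : Fin 2 → Fin 3 → ℤ) (hS : ∀ i, IsShip (S i)) :
    ∃ x : ℤ → ℕ, IsPattern x ∧ (∀ i, Hits x (S i)) ∧ HasDensity x (1 / 2) := by
  have lt01 : ∀ i, S i 0 < S i 1 := fun i => hS i (by decide)
  have lt12 : ∀ i, S i 1 < S i 2 := fun i => hS i (by decide)
  have a0 := lt01 0
  have a1 := lt12 0
  have b0 := lt01 1
  have b1 := lt12 1
  obtain ⟨x, hx, hA, hB⟩ := Pool.Agent.Q231.Ships.common_all (d₁ := S 0 1 - S 0 0)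
    (d₂ := S 0 2 - S 0 1) (e₁ := S 1 1 - S 1 0) (e₂ := S 1 2 - S 1 1)
    (by omega) (by omega) (by omega) (by omega) (by omega) (by omega)
  refine ⟨x, ?_, ?_, hx.density⟩
  · intro i
    have := hx.1 i
    omega
  · have key : ∀ i, Pool.Agent.Q231.Ships.Hit (fun i => x i = 1) (S i 1 - S i 0)
        (S i 2 - S i 1) → Hits x (S i) := by
      intro i hi t
      have h := hi (t + S i 0)
      rw [show t + S i 0 + (S i 1 - S i 0) = t + S i 1 by ring,
        show t + S i 1 + (S i 2 - S i 1) = t + S i 2 by ring] at h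
      rw [Fin.sum_univ_three]
      rcases h with h | h | h <;> omega
    intro i
    fin_cases i
    · exact key 0 hA
    · exact key 1 hB

/-- **Theorem.** `M^2_3 = 1/2`. Moreover every family of two 3-ships is hit by a pattern whose
density exists and equals `1/2`, and the family `[0,1,2], [0,1,3]` requires density `1/2`. -/
theorem result :
    toughest 2 3 = 1 / 2 ∧
    (∀ S : Fin 2 → Fin 3 → ℤ, (∀ i, IsShip (S i)) →
      ∃ x : ℤ → ℕ, IsPattern x ∧ (∀ i, Hits x (S i)) ∧ HasDensity x (1 / 2)) ∧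
    piOf (![![0, 1, 2], ![0, 1, 3]] : Fin 2 → Fin 3 → ℤ) = 1 / 2 := by
  have hbdd : ∀ (S : Fin 2 → Fin 3 → ℤ), BddBelow {δ : ℝ | ∃ x : ℤ → ℕ, IsPattern x ∧
      (∀ i, Hits x (S i)) ∧ HasDensity x δ} := by
    intro S
    refine ⟨0, ?_⟩
    rintro δ ⟨x, -, -, hδ⟩
    refine ge_of_tendsto' hδ ?_
    intro N
    positivity
  have hup : ∀ S : Fin 2 → Fin 3 → ℤ, (∀ i, IsShip (S i)) → piOf S ≤ 1 / 2 := by
    intro S hS
    exact csInf_le (hbdd S) (upper S hS)
  have hship : ∀ i, IsShip ((![![0, 1, 2], ![0, 1, 3]] : Fin 2 → Fin 3 → ℤ) i) := by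
    intro i
    fin_cases i
    · intro a b hab
      fin_cases a <;> fin_cases b <;> simp_all
    · intro a b hab
      fin_cases a <;> fin_cases b <;> simp_all
  have heq : piOf (![![0, 1, 2], ![0, 1, 3]] : Fin 2 → Fin 3 → ℤ) = 1 / 2 := by
    apply le_antisymm (hup _ hship)
    apply le_csInf
    · exact ⟨1 / 2, upper _ hship⟩
    · rintro δ ⟨x, hx, hh, hδ⟩
      exact lower hx hh hδ
  refine ⟨?_, upper, heq⟩
  apply le_antisymm
  · apply csSup_le
    · exact ⟨_, _, hship, rfl⟩
    · rintro p ⟨S, hS, rfl⟩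
      exact hup S hS
  · apply le_csSup
    · refine ⟨1 / 2, ?_⟩
      rintro p ⟨S, hS, rfl⟩
      exact hup S hS
    · exact ⟨_, hship, heq.symm⟩

end Pool.Agent.Results.MP_e24151_co.OneHalf
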